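import Mathlib
import Pool.Agent.Work.MP_10800c_mp.Defs
import Pool.Agent.Work.MP_10800c_mp.Final

/-!
# Feynman checkers: the limit of `S_v(t)` for `v < 1/√2`, and the posed formula is false
-/

namespace Pool.Agent.Results.MP_10800c_mp.EllipticLimit

open Filter Topology Pool.Agent.Work.MP_10800c_mp

/-- For every `0 < v < 1/√2` the limit of `S_v(t)` is
`(2v + 1 - √(1-2v²) + log ((1+√(1-2v²))/2)) / 4`, and this is strictly larger than the posed value
`(1 + v - √(1-v²) + log ((1+√(1-v²))/2)) / 2`. -/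
theorem result : ∀ v : ℝ, 0 < v → v < 1 / √2 →
    Tendsto (fun t : ℕ => S v t) atTop
      (𝓝 ((2 * v + 1 - √(1 - 2 * v ^ 2) + Real.log ((1 + √(1 - 2 * v ^ 2)) / 2)) / 4)) ∧
    1 / 2 * (1 + v - √(1 - v ^ 2) + Real.log ((1 + √(1 - v ^ 2)) / 2)) <
      (2 * v + 1 - √(1 - 2 * v ^ 2) + Real.log ((1 + √(1 - 2 * v ^ 2)) / 2)) / 4 := by
  intro v hv hv'
  have h22 : √(2 : ℝ) ^ 2 = 2 := Real.sq_sqrt two_pos.le
  have h20 : (0 : ℝ) < √2 := Real.sqrt_pos.2 two_pos
  have h1 : v * √2 < 1 := by rwa [lt_div_iff₀ h20] at hv'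
  have hv2 : 2 * v ^ 2 < 1 := by
    have h2 : (v * √2) ^ 2 < 1 := by
      have h3 : 0 ≤ v * √2 := by positivity
      nlinarith
    rw [mul_pow, h22] at h2
    linarith
  refine ⟨?_, ?_⟩
  · have h := limit_elliptic hv.le hv2
    rwa [integral_hh hv.le hv2.le] at h
  · have h := posed_lt hv hv2
    linarith

end Pool.Agent.Results.MP_10800c_mp.EllipticLimit
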