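import Mathlib
import Pool.Agent.Work.MP_10800c_mp.Defs
import Pool.Agent.Work.MP_10800c_mp.Final

/-!
# Feynman checkers: the limit of `S_v(t)` for `1/√2 < v < 1`
-/

namespace Pool.Agent.Results.MP_10800c_mp.HyperbolicLimit

open Filter Topology Pool.Agent.Work.MP_10800c_mp

/-- For every `1/√2 < v < 1` the limit of `S_v(t)` is
`(2v + 1 + log (v/√2) + √(2v²-1) - arctan √(2v²-1)) / 4`. -/
theorem result : ∀ v : ℝ, 1 / √2 < v → v < 1 →
    Tendsto (fun t : ℕ => S v t) atTop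
      (𝓝 ((2 * v + 1 + Real.log (v / √2) + √(2 * v ^ 2 - 1)
        - Real.arctan (√(2 * v ^ 2 - 1))) / 4)) := by
  intro v hv' hv1
  have h22 : √(2 : ℝ) ^ 2 = 2 := Real.sq_sqrt two_pos.le
  have h20 : (0 : ℝ) < √2 := Real.sqrt_pos.2 two_pos
  have hv : 0 < v := lt_trans (by positivity) hv'
  have h1 : 1 < v * √2 := by rwa [div_lt_iff₀ h20] at hv'
  have hv2 : 1 < 2 * v ^ 2 := by
    have h2 : 1 < (v * √2) ^ 2 := by nlinarith
    rw [mul_pow, h22] at h2
    linarith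
  have h := limit_hyperbolic hv hv2 hv1
  rwa [integral_HH hv hv2] at h

end Pool.Agent.Results.MP_10800c_mp.HyperbolicLimit
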